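import Mathlib
import Pool.Agent.Helper772.MV.Basic
import Pool.Agent.Helper772.MV.Final

/-!
# Optimal exponents for coefficient combinations of mean `p`-valent functions

`MeanVal.optExp m p` is the exponent `α_m(p)` of the problem (definitions in
`Pool.Agent.Helper772.MV.Basic`).  We determine it for all `m ≥ 1` and all `0 < p ≤ 1`, and show
`α_m(p) > -1/2` for all `m ≥ 1`, `p > 1/4`.
-/

open MeasureTheory Metric Set
open scoped ENNReal Real

namespace Pool.Agent.Results.MP_e3615c_an.OptimalExponent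

open MeanVal

theorem conj_one (p : ℝ) (hp : 1 / 2 < p) (hp1 : p < 1) :
    optExp 1 p = ((p - 1 : ℝ) : EReal) ↔ 3 / 4 ≤ p := by
  constructor
  · intro h
    by_contra hlt
    push Not at hlt
    rw [optExp_one 1 le_rfl p (by linarith) hlt.le, EReal.coe_eq_coe_iff] at h
    have h1 : 0 < 4 * p + 1 := by linarith
    have h2 : (2 * p - 1 / 2) * ((4 * p - 1) / (4 * p + 1)) ^ (2 * 1) = p - 1 / 2 := by linarith
    rw [mul_one, div_pow, ← mul_div_assoc, div_eq_iff (by positivity)] at h2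
    have h3 : p * (4 * p - 3) ^ 2 = 0 := by linear_combination h2
    have h4 : (4 * p - 3) ^ 2 = 0 := by
      rcases mul_eq_zero.1 h3 with h5 | h5
      · linarith
      · exact h5
    have h5 : 4 * p - 3 = 0 := by simpa using h4
    linarith
  · intro h
    rw [optExp_two 1 le_rfl p h hp1.le, EReal.coe_eq_coe_iff]
    simp
    ring

/-- **Main theorem.** For `m ≥ 1` and `p > 0`: the exact value of `α_m(p)` for `p ≤ 1`, the strict
inequality `α_m(p) > -1/2` for every `p > 1/4`, and for `1/2 < p < 1` the equality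
`α_1(p) = p - 1` holds exactly when `p ≥ 3/4`. -/
theorem result (m : ℕ) (hm : 1 ≤ m) (p : ℝ) (hp : 0 < p) :
    (p ≤ 1 / 4 → optExp m p = ((-1 / 2 : ℝ) : EReal)) ∧
    (1 / 4 ≤ p → p ≤ 3 / 4 → optExp m p =
      ((-1 / 2 + (2 * p - 1 / 2) * ((4 * p - 1) / (4 * p + 1)) ^ (2 * m) : ℝ) : EReal)) ∧
    (3 / 4 ≤ p → p ≤ 1 → optExp m p =
      ((-1 / 2 + (p - 1 / 2) * ((4 * p - 1) / (4 * p + 1)) ^ (2 * (m - 1)) : ℝ) : EReal)) ∧
    (1 / 4 < p → ((-1 / 2 : ℝ) : EReal) < optExp m p) ∧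
    (1 / 2 < p → p < 1 → (optExp 1 p = ((p - 1 : ℝ) : EReal) ↔ 3 / 4 ≤ p)) :=
  ⟨optExp_zero m p hp, optExp_one m hm p, optExp_two m hm p, optExp_gt m hm p, conj_one p⟩

end Pool.Agent.Results.MP_e3615c_an.OptimalExponent
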